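import Pool.Agent.Lib.MP_b05c5f_co.Many

namespace Pool.Agent.Results.MP_b05c5f_co.ManyBounds

open Pool.Agent.Lib.MP_b05c5f_co

/-- The class of outerplanar graphs has exactly continuum many minimal acyclic reducible
bounds. -/
theorem result :
    Cardinal.mk {R : Set FinGraph |
      (∃ P Q : Set FinGraph, IsNontrivAddHered P ∧ IsNontrivAddHered Q ∧ R = odot P Q) ∧
      outerplanar ⊆ R ∧
      ¬ ∃ P Q : Set FinGraph, IsNontrivAddHered P ∧ IsNontrivAddHered Q ∧
        outerplanar ⊆ odot P Q ∧ odot P Q ⊂ R} = Cardinal.continuum := by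
  refine le_antisymm (card_le _ fun _ h => h.1) ?_
  choose R h1 h2 using fun a : Set.Icc (1 / 2 : ℝ) 1 =>
    exists_min (R0 := odot edgeless (QA a)) (fun e => odotA_ne a.2.1 (e.ge trivial))
      ⟨_, _, edgeless_good, QA_good a.2.1, rfl⟩ (upperQ (le_trans (by norm_num) a.2.1) a.2.2)
  have h3 := Cardinal.lift_mk_le_lift_mk_of_injective
    (f := fun a => (⟨R a, h2 a⟩ : {R : Set FinGraph |
      (∃ P Q : Set FinGraph, IsNontrivAddHered P ∧ IsNontrivAddHered Q ∧ R = odot P Q) ∧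
      outerplanar ⊆ R ∧
      ¬ ∃ P Q : Set FinGraph, IsNontrivAddHered P ∧ IsNontrivAddHered Q ∧
        outerplanar ⊆ odot P Q ∧ odot P Q ⊂ R})) fun a b e => by
    obtain ⟨⟨P, Q, hP, hQ, h⟩, hT, -⟩ := h2 a
    have e' : R a = R b := congrArg Subtype.val e
    exact Subtype.ext (slope_eq a.2.1 b.2.1 hP hQ (hT.trans h.le) (h.ge.trans (h1 a))
      (h.ge.trans (e'.le.trans (h1 b))))
  rwa [Cardinal.mk_Icc_real (by norm_num), Cardinal.lift_continuum, Cardinal.lift_uzero] at h3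

end Pool.Agent.Results.MP_b05c5f_co.ManyBounds
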