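import Pool.Agent.Lib.MP_b05c5f_co.Upper
import Pool.Agent.Lib.MP_b05c5f_co.Lower

namespace Pool.Agent.Results.MP_b05c5f_co.MinimalBound

open Pool.Agent.Lib.MP_b05c5f_co

/-- Edgeless graphs times subgraphs of the rooted tree of fans is a minimal acyclic reducible
bound for outerplanar graphs. -/
theorem result :
    IsNontrivAddHered edgeless ∧ IsNontrivAddHered rootedFans ∧
      outerplanar ⊆ odot edgeless rootedFans ∧
      ¬ ∃ P Q : Set FinGraph, IsNontrivAddHered P ∧ IsNontrivAddHered Q ∧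
        outerplanar ⊆ odot P Q ∧ odot P Q ⊂ odot edgeless rootedFans := by
  refine ⟨edgeless_good, rootedFans_good, upper, ?_⟩
  rintro ⟨P, Q, hP, hQ, h1, h2⟩
  exact h2.2 (lower hP hQ h1 h2.1)

end Pool.Agent.Results.MP_b05c5f_co.MinimalBound
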